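import Mathlib
import Pool.Agent.H7.KL.Defs
import Pool.Agent.H7.KL.Quad3

set_option autoImplicit false

namespace Pool.Agent.Results.MP_28e63a_al.NoGoodSuffix

open Pool.Agent.H7.KL

/-- Disproof of Q1: there is an infinite irreducible Coxeter system of finite rank, with elements
`w = y.v₀`, `u = x.v₁.x⁻¹`, `w' = w.u` satisfying all hypotheses (`v₀` maximal in `w`, `u ∈ 𝒟`,
`v₁ ∈ 𝒟_f`, `v₁ ≠ e`, `a(u) ≤ a(v₀)`, `a(w') = a(w)`; moreover `v₁` is maximal in `w'`), such that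
`μ(w, w' v₀₁⁻¹) = 0` for every factorisation `v₀ = v₀'.v₀₁`. -/
theorem result :
    ∃ (B : Type) (_ : Finite B) (M : CoxeterMatrix B) (W : Type) (_ : Group W)
      (cs : CoxeterSystem M W), Infinite W ∧
      (∀ S : Set B, S.Nonempty → Sᶜ.Nonempty → ∃ i ∈ S, ∃ j ∈ Sᶜ, M i j ≠ 2) ∧
      ∃ (H : Type) (_ : Ring H) (_ : Algebra A H) (𝓗 : HeckeAlgebra cs H) (K : KLBasis cs 𝓗)
        (w y v₀ u x v₁ w' : W),
        Red2 cs w y v₀ ∧ IsMaximalFactor cs w y v₀ 1 ∧
        Red3 cs u x v₁ x⁻¹ ∧ K.IsDistinguished u ∧ InDf K v₁ ∧ v₁ ≠ 1 ∧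
        K.a u ≤ K.a v₀ ∧ Red2 cs w' w u ∧ K.a w' = K.a w ∧
        IsMaximalFactor cs w' (w * x) v₁ x⁻¹ ∧
        ∀ v₀' v₀₁ : W, Red2 cs v₀ v₀' v₀₁ → K.mu w (w' * v₀₁⁻¹) = 0 := by
  classical
  let cs := mat.toCoxeterSystem
  have hR := mat_rightAngled
  have hT := mat_noTriple
  have q := mat_quad
  have hinf : Infinite mat.Group := by
    have h := infinite_of_noncomm (cs := cs) hR q.nab q.ab ⊤ (Subgroup.mem_top _)
      (Subgroup.mem_top _)
    by_contra hcon
    rw [not_infinite_iff_finite] at hcon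
    exact h (Set.toFinite _)
  let 𝓗 := heckeAlgebra cs
  let K := klBasis 𝓗
  have hs := cs.length_simple
  have l1 := length_pair (cs := cs) hR q.nac
  have l2 := length_pair (cs := cs) hR q.nbd
  have e : cs.simple 0 * cs.simple 2 * (cs.simple 1 * cs.simple 3) =
      cs.wordProd (wd1 0 1 1) * cs.wordProd (wd2 2 3 0) := by
    have hbc := comm_simple cs q.bc
    have : cs.simple 0 * cs.simple 2 * (cs.simple 1 * cs.simple 3) =
        cs.simple 0 * cs.simple 1 * (cs.simple 2 * cs.simple 3) := by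
      rw [mul_assoc, ← mul_assoc (cs.simple 2), ← hbc]
      simp only [mul_assoc]
    rw [this]
    simp [wd1, wd2, cs.wordProd_cons, mul_assoc]
  have l4 : cs.length (cs.simple 0 * cs.simple 2 * (cs.simple 1 * cs.simple 3)) = 4 := by
    rw [e, len_add cs q hR, len_wd1 cs q hR, len_wd2 cs q hR]; rfl
  have hred : Red2 cs (cs.simple 0 * cs.simple 2 * (cs.simple 1 * cs.simple 3))
      (cs.simple 0 * cs.simple 2) (cs.simple 1 * cs.simple 3) := ⟨rfl, by rw [l4, l1, l2]⟩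
  refine ⟨Fin 5, inferInstance, mat, mat.Group, inferInstance, cs, hinf, ?_, HA cs, inferInstance,
    inferInstance, 𝓗, K, cs.simple 0 * cs.simple 2, 1, cs.simple 0 * cs.simple 2,
    cs.simple 1 * cs.simple 3, 1, cs.simple 1 * cs.simple 3,
    cs.simple 0 * cs.simple 2 * (cs.simple 1 * cs.simple 3), ?_, ?_, ?_, ?_, ?_, ?_, ?_, hred, ?_,
    ?_, ?_⟩
  · intro S hS hSc
    by_cases h4 : (4 : Fin 5) ∈ S
    · obtain ⟨j, hj⟩ := hSc
      refine ⟨4, h4, j, hj, ?_⟩
      have hne : j ≠ 4 := by rintro rfl; exact hj h4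
      revert hne
      revert j
      intro j _
      fin_cases j <;> decide
    · obtain ⟨i, hi⟩ := hS
      refine ⟨i, hi, 4, h4, ?_⟩
      have hne : i ≠ 4 := by rintro rfl; exact h4 hi
      revert hne
      fin_cases i <;> decide
  · exact ⟨(one_mul _).symm, by rw [cs.length_one, zero_add]⟩
  · exact maximal_of_length_two hR hT ⟨by simp, by simp⟩ (finite_pair q.ac) l1
  · exact ⟨by simp, by simp⟩
  · exact distinguished_pair K hR hT q.nbd q.bd
  · exact ⟨distinguished_pair K hR hT q.nbd q.bd, finite_pair q.bd⟩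
  · intro h
    rw [h, cs.length_one] at l2
    omega
  · rw [a_pair K hR hT q.nbd q.bd, a_pair K hR hT q.nac q.ac]
  · rw [a_pair K hR hT q.nac q.ac, e]
    exact a_abcd K q hR hT
  · exact maximal_of_length_two hR hT ⟨by simp, by simp [l4, l1, l2]⟩ (finite_pair q.bd) l2
  · intro v₀' v₀₁ h
    exact mu_suffix K q hR h

end Pool.Agent.Results.MP_28e63a_al.NoGoodSuffix
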